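import Mathlib

/-!
# The Manturov group `G^2_4` contains a free subgroup of rank two

`G24` is given by its presentation with the six generators
`a = a₁₂`, `b = a₁₃`, `c = a₁₄`, `d = a₂₃`, `e = a₂₄`, `f = a₃₄`.

The proof: sending `a ↦ a`, `b, d ↦ b`, `c, e ↦ c`, `f ↦ 1` respects all the relations
of `G24` as soon as `a, b, c` are involutions with `bc = cb`.  We take for `a, b, c` the
reflections of the hyperboloid model of the hyperbolic plane
`u² + v² < w², w > 0` (integral points) in the lines `u + v = w`, `u = 0`, `v = 0`, and play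
ping-pong with the two elements `abab` and `acac`.
-/

namespace Pool.Agent.Results.MP_18aa7e_al.FreeSubgroup

/-- The six generators of `G^2_4`, in the lexicographic order of the index pairs
`12, 13, 14, 23, 24, 34`. -/
inductive Gen : Type
  | a | b | c | d | e | f

/-- The letters `a = a₁₂`, ..., `f = a₃₄` in the free group on the six generators. -/
abbrev a : FreeGroup Gen := FreeGroup.of Gen.a
/-- `b = a₁₃` -/
abbrev b : FreeGroup Gen := FreeGroup.of Gen.b
/-- `c = a₁₄` -/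
abbrev c : FreeGroup Gen := FreeGroup.of Gen.c
/-- `d = a₂₃` -/
abbrev d : FreeGroup Gen := FreeGroup.of Gen.d
/-- `e = a₂₄` -/
abbrev e : FreeGroup Gen := FreeGroup.of Gen.e
/-- `f = a₃₄` -/
abbrev f : FreeGroup Gen := FreeGroup.of Gen.f

/-- The defining relators of `G^2_4`; a relation `u = v` is written as the relator `u * v⁻¹`. -/
def rels : Set (FreeGroup Gen) :=
  { a * a, b * b, c * c, d * d, e * e, f * f,
    (a * f) * (f * a)⁻¹, (b * e) * (e * b)⁻¹, (c * d) * (d * c)⁻¹,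
    (a * b * d) * (d * b * a)⁻¹, (b * a * d) * (d * a * b)⁻¹, (a * d * b) * (b * d * a)⁻¹,
    (a * c * e) * (e * c * a)⁻¹, (c * a * e) * (e * a * c)⁻¹, (a * e * c) * (c * e * a)⁻¹,
    (b * c * f) * (f * c * b)⁻¹, (c * b * f) * (f * b * c)⁻¹, (b * f * c) * (c * f * b)⁻¹,
    (d * e * f) * (f * e * d)⁻¹, (e * d * f) * (f * d * e)⁻¹, (d * f * e) * (e * f * d)⁻¹ }

/-- The Manturov group `G^2_4`. -/
abbrev G24 : Type := PresentedGroup rels

/-- Integral points of the open future light cone of the form `u² + v² - w²`. -/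
def Cone : Type := {p : ℤ × ℤ × ℤ // p.1 ^ 2 + p.2.1 ^ 2 < p.2.2 ^ 2 ∧ 0 < p.2.2}

namespace Cone

theorem lt_w (p : Cone) : -p.1.2.2 < p.1.1 ∧ p.1.1 < p.1.2.2 ∧ -p.1.2.2 < p.1.2.1 ∧
    p.1.2.1 < p.1.2.2 := by
  obtain ⟨⟨u, v, w⟩, h, hw⟩ := p
  simp only at h hw ⊢
  have hu : u ^ 2 < w ^ 2 := by nlinarith [sq_nonneg v]
  have hv : v ^ 2 < w ^ 2 := by nlinarith [sq_nonneg u]
  have hu' := abs_lt_of_sq_lt_sq hu hw.le
  have hv' := abs_lt_of_sq_lt_sq hv hw.le
  rw [abs_lt] at hu' hv'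
  exact ⟨hu'.1, hu'.2, hv'.1, hv'.2⟩

/-- The reflection in the line `u = 0`. -/
def fb (p : Cone) : Cone := ⟨(-p.1.1, p.1.2.1, p.1.2.2), by
  have := p.2
  simpa using this⟩

/-- The reflection in the line `v = 0`. -/
def fc (p : Cone) : Cone := ⟨(p.1.1, -p.1.2.1, p.1.2.2), by
  have := p.2
  simpa using this⟩

/-- The reflection in the line `u + v = w`. -/
def fa (p : Cone) : Cone :=
  ⟨(p.1.1 - 2 * (p.1.1 + p.1.2.1 - p.1.2.2), p.1.2.1 - 2 * (p.1.1 + p.1.2.1 - p.1.2.2),
    p.1.2.2 - 2 * (p.1.1 + p.1.2.1 - p.1.2.2)), by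
  obtain ⟨⟨u, v, w⟩, h, hw⟩ := p
  simp only at h hw ⊢
  constructor
  · nlinarith
  · have h1 : (2 * (u + v)) ^ 2 < (3 * w) ^ 2 := by nlinarith [sq_nonneg (u - v)]
    have h2 := abs_lt_of_sq_lt_sq h1 (by positivity)
    rw [abs_lt] at h2
    linarith [h2.2]⟩

theorem fa_fa (p : Cone) : fa (fa p) = p := by
  apply Subtype.ext
  simp only [fa]
  refine Prod.ext ?_ (Prod.ext ?_ ?_) <;> (simp only; ring)

theorem fb_fb (p : Cone) : fb (fb p) = p := by
  apply Subtype.ext
  simp only [fb]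
  refine Prod.ext ?_ (Prod.ext ?_ ?_) <;> (simp only; try ring)

theorem fc_fc (p : Cone) : fc (fc p) = p := by
  apply Subtype.ext
  simp only [fc]
  refine Prod.ext ?_ (Prod.ext ?_ ?_) <;> (simp only; try ring)

theorem fb_fc (p : Cone) : fb (fc p) = fc (fb p) := rfl

/-- The reflections as permutations. -/
def A : Equiv.Perm Cone := ⟨fa, fa, fa_fa, fa_fa⟩
/-- The reflections as permutations. -/
def B : Equiv.Perm Cone := ⟨fb, fb, fb_fb, fb_fb⟩
/-- The reflections as permutations. -/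
def C : Equiv.Perm Cone := ⟨fc, fc, fc_fc, fc_fc⟩

theorem AA : A * A = 1 := Equiv.ext fa_fa
theorem BB : B * B = 1 := Equiv.ext fb_fb
theorem CC : C * C = 1 := Equiv.ext fc_fc
theorem BC : B * C = C * B := Equiv.ext fb_fc

end Cone

open Cone

/-- The images of the generators. -/
def img : Gen → Equiv.Perm Cone
  | Gen.a => A
  | Gen.b => B
  | Gen.c => C
  | Gen.d => B
  | Gen.e => C
  | Gen.f => 1

theorem img_rels : ∀ r ∈ rels, FreeGroup.lift img r = 1 := by
  have hA := AA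
  have hB := BB
  have hC := CC
  have hBC : B * C = C * B := BC
  have hAi : A⁻¹ = A := inv_eq_of_mul_eq_one_left hA
  have hBi : B⁻¹ = B := inv_eq_of_mul_eq_one_left hB
  have hCi : C⁻¹ = C := inv_eq_of_mul_eq_one_left hC
  have hA' : ∀ x, A * (A * x) = x := fun x => by rw [← mul_assoc, hA, one_mul]
  have hB' : ∀ x, B * (B * x) = x := fun x => by rw [← mul_assoc, hB, one_mul]
  have hC' : ∀ x, C * (C * x) = x := fun x => by rw [← mul_assoc, hC, one_mul]
  have hBC' : ∀ x, B * (C * x) = C * (B * x) := fun x => by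
    rw [← mul_assoc, hBC, mul_assoc]
  intro r hr
  simp only [rels, Set.mem_insert_iff, Set.mem_singleton_iff] at hr
  rcases hr with rfl | rfl | rfl | rfl | rfl | rfl | rfl | rfl | rfl | rfl | rfl | rfl | rfl |
    rfl | rfl | rfl | rfl | rfl | rfl | rfl | rfl <;>
  simp only [map_mul, map_inv, FreeGroup.lift_apply_of, img, hA, hB, hC, mul_inv_rev, hAi, hBi,
    hCi, hA', hB', hC', mul_one, one_mul, mul_assoc, hBC, hBC', inv_one]

/-- The homomorphism from `G^2_4` to the permutations of the cone. -/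
def hom : G24 →* Equiv.Perm Cone := PresentedGroup.toGroup img_rels

/-- The two elements of `G^2_4` which generate a free group: `abab` and `acac`. -/
def gens : Fin 2 → G24 := ![
  PresentedGroup.of Gen.a * PresentedGroup.of Gen.b * PresentedGroup.of Gen.a *
    PresentedGroup.of Gen.b,
  PresentedGroup.of Gen.a * PresentedGroup.of Gen.c * PresentedGroup.of Gen.a *
    PresentedGroup.of Gen.c]

/-- Their images. -/
def pgens : Fin 2 → Equiv.Perm Cone := ![A * B * A * B, A * C * A * C]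

theorem hom_gens (i : Fin 2) : hom (gens i) = pgens i := by
  fin_cases i <;> simp [gens, pgens, hom, img]

/-- The attracting sets. -/
def X : Fin 2 → Set Cone := ![
  {p | (fa p).1.2.2 ≤ -(fa p).1.1 + (fa p).1.2.1},
  {p | (fa p).1.2.2 ≤ (fa p).1.1 - (fa p).1.2.1}]

/-- The repelling sets. -/
def Y : Fin 2 → Set Cone := ![{p | p.1.2.2 < -p.1.1 + p.1.2.1}, {p | p.1.2.2 < p.1.1 - p.1.2.1}]

theorem mem_X0 (p : Cone) : p ∈ X 0 ↔ (fa p).1.2.2 ≤ -(fa p).1.1 + (fa p).1.2.1 := Iff.rfl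
theorem mem_X1 (p : Cone) : p ∈ X 1 ↔ (fa p).1.2.2 ≤ (fa p).1.1 - (fa p).1.2.1 := Iff.rfl
theorem mem_Y0 (p : Cone) : p ∈ Y 0 ↔ p.1.2.2 < -p.1.1 + p.1.2.1 := Iff.rfl
theorem mem_Y1 (p : Cone) : p ∈ Y 1 ↔ p.1.2.2 < p.1.1 - p.1.2.1 := Iff.rfl

theorem fa_u (p : Cone) : (fa p).1.1 = p.1.1 - 2 * (p.1.1 + p.1.2.1 - p.1.2.2) := rfl
theorem fa_v (p : Cone) : (fa p).1.2.1 = p.1.2.1 - 2 * (p.1.1 + p.1.2.1 - p.1.2.2) := rfl
theorem fa_w (p : Cone) : (fa p).1.2.2 = p.1.2.2 - 2 * (p.1.1 + p.1.2.1 - p.1.2.2) := rfl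
theorem fb_u (p : Cone) : (fb p).1.1 = -p.1.1 := rfl
theorem fb_v (p : Cone) : (fb p).1.2.1 = p.1.2.1 := rfl
theorem fb_w (p : Cone) : (fb p).1.2.2 = p.1.2.2 := rfl
theorem fc_u (p : Cone) : (fc p).1.1 = p.1.1 := rfl
theorem fc_v (p : Cone) : (fc p).1.2.1 = -p.1.2.1 := rfl
theorem fc_w (p : Cone) : (fc p).1.2.2 = p.1.2.2 := rfl

/-- A point of `B`-image of the base half-plane. -/
def q0 : Cone := ⟨(-2, 2, 3), by norm_num⟩
/-- A point of `C`-image of the base half-plane. -/
def q1 : Cone := ⟨(2, -2, 3), by norm_num⟩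

theorem injective_pgens : Function.Injective (FreeGroup.lift pgens) := by
  apply FreeGroup.injective_lift_of_ping_pong pgens X Y
  · intro i
    fin_cases i
    · refine ⟨fa q0, ?_⟩
      change fa q0 ∈ X 0
      rw [mem_X0, fa_fa]
      change (3 : ℤ) ≤ -(-2) + 2
      norm_num
    · refine ⟨fa q1, ?_⟩
      change fa q1 ∈ X 1
      rw [mem_X1, fa_fa]
      change (3 : ℤ) ≤ 2 - (-2)
      norm_num
  · intro i j hij
    rw [Function.onFun, Set.disjoint_left]
    intro p hp hq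
    have h2 := lt_w (fa p)
    fin_cases i <;> fin_cases j
    · exact hij rfl
    · have hp' := (mem_X0 p).1 hp
      have hq' := (mem_X1 p).1 hq
      omega
    · have hp' := (mem_X1 p).1 hp
      have hq' := (mem_X0 p).1 hq
      omega
    · exact hij rfl
  · intro i j hij
    rw [Function.onFun, Set.disjoint_left]
    intro p hp hq
    have h1 := lt_w p
    fin_cases i <;> fin_cases j
    · exact hij rfl
    · have hp' := (mem_Y0 p).1 hp
      have hq' := (mem_Y1 p).1 hq
      omega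
    · have hp' := (mem_Y1 p).1 hp
      have hq' := (mem_Y0 p).1 hq
      omega
    · exact hij rfl
  · intro i j
    rw [Set.disjoint_left]
    intro p hp hq
    have h1 := lt_w p
    have h2 := lt_w (fa p)
    rw [fa_u, fa_v, fa_w] at h2
    fin_cases i <;> fin_cases j
    · have hp' := (mem_X0 p).1 hp
      have hq' := (mem_Y0 p).1 hq
      rw [fa_u, fa_v, fa_w] at hp'
      omega
    · have hp' := (mem_X0 p).1 hp
      have hq' := (mem_Y1 p).1 hq
      rw [fa_u, fa_v, fa_w] at hp'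
      omega
    · have hp' := (mem_X1 p).1 hp
      have hq' := (mem_Y0 p).1 hq
      rw [fa_u, fa_v, fa_w] at hp'
      omega
    · have hp' := (mem_X1 p).1 hp
      have hq' := (mem_Y1 p).1 hq
      rw [fa_u, fa_v, fa_w] at hp'
      omega
  · intro i
    rintro _ ⟨p, hp, rfl⟩
    fin_cases i
    · change fa (fb (fa (fb p))) ∈ X 0
      have hp' : ¬ (p ∈ Y 0) := hp
      rw [mem_Y0] at hp'
      rw [mem_X0, fa_fa]
      simp only [fa_u, fa_v, fa_w, fb_u, fb_v, fb_w]
      omega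
    · change fa (fc (fa (fc p))) ∈ X 1
      have hp' : ¬ (p ∈ Y 1) := hp
      rw [mem_Y1] at hp'
      rw [mem_X1, fa_fa]
      simp only [fa_u, fa_v, fa_w, fc_u, fc_v, fc_w]
      omega
  · intro i
    rintro _ ⟨p, hp, rfl⟩
    fin_cases i
    · change fb (fa (fb (fa p))) ∈ Y 0
      have hp' : ¬ (p ∈ X 0) := hp
      rw [mem_X0] at hp'
      rw [mem_Y0]
      generalize fa p = q at hp' ⊢
      simp only [fa_u, fa_v, fa_w, fb_u, fb_v, fb_w]
      omega
    · change fc (fa (fc (fa p))) ∈ Y 1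
      have hp' : ¬ (p ∈ X 1) := hp
      rw [mem_X1] at hp'
      rw [mem_Y1]
      generalize fa p = q at hp' ⊢
      simp only [fa_u, fa_v, fa_w, fc_u, fc_v, fc_w]
      omega

theorem injective_gens : Function.Injective (FreeGroup.lift gens) := by
  have h : (hom.comp (FreeGroup.lift gens)) = FreeGroup.lift pgens := by
    ext i : 1
    simp [hom_gens]
  have h2 : Function.Injective (hom.comp (FreeGroup.lift gens)) := by
    rw [h]; exact injective_pgens
  rw [MonoidHom.coe_comp] at h2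
  exact h2.of_comp

/-- `G^2_4` contains a subgroup isomorphic to the free group of rank 2. -/
theorem result : ∃ H : Subgroup G24, Nonempty (H ≃* FreeGroup (Fin 2)) :=
  ⟨(FreeGroup.lift gens).range, ⟨(MonoidHom.ofInjective injective_gens).symm⟩⟩

end Pool.Agent.Results.MP_18aa7e_al.FreeSubgroup
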